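import Mathlib

set_option autoImplicit false

namespace Pool.Agent.H.MP_dbb207_co

open Finset

abbrev E := Fin 4 × Fin 7

def c (D : Finset E) (l : Fin 4) : ℕ := (D.filter (fun g => g.1 = l)).card
def δ (g : E) (l : Fin 4) : ℕ := if g.1 = l then 1 else 0

lemma δ_sum (g : E) : δ g 0 + δ g 1 + δ g 2 + δ g 3 = 1 := by
  obtain ⟨i, j⟩ := g
  fin_cases i <;> simp [δ]

lemma δ_of {g : E} {l : Fin 4} (h : g.1 = l) : δ g l = 1 := by simp [δ, h]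
lemma of_δ {g : E} {l : Fin 4} (h : δ g l = 1) : g.1 = l := by
  by_contra h1; simp [δ, h1] at h

lemma c_mono {D X : Finset E} (h : D ⊆ X) (l : Fin 4) : c D l ≤ c X l :=
  card_le_card (filter_subset_filter _ h)

lemma c_le (D : Finset E) (l : Fin 4) : c D l ≤ 7 := by
  refine le_trans (c_mono (subset_univ D) l) ?_
  revert l; decide

lemma c_insert {D : Finset E} {g : E} (h : g ∉ D) (l : Fin 4) : c (insert g D) l = c D l + δ g l := by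
  unfold c δ
  rw [filter_insert]
  split_ifs with h1
  · rw [card_insert_of_notMem (by simp [h])]
  · rfl

lemma c_erase {D : Finset E} {g : E} (h : g ∈ D) (l : Fin 4) : c (D.erase g) l + δ g l = c D l := by
  rw [← c_insert (notMem_erase g D), insert_erase h]

lemma card_eq (D : Finset E) : D.card = c D 0 + c D 1 + c D 2 + c D 3 := by
  induction D using Finset.induction_on with
  | empty => simp [c]
  | insert g D h ih =>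
    rw [card_insert_of_notMem h, c_insert h, c_insert h, c_insert h, c_insert h, ih]
    have := δ_sum g; omega

lemma mem_of_c {C X : Finset E} (h : C ⊆ X) {g : E} (h1 : c X g.1 ≤ c C g.1) (hg : g ∈ X) :
    g ∈ C := by
  have := eq_of_subset_of_card_le (filter_subset_filter (fun x : E => x.1 = g.1) h) h1
  have h2 : g ∈ X.filter (fun x : E => x.1 = g.1) := by simp [hg]
  rw [← this] at h2
  exact (mem_filter.1 h2).1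

def pr (j l : Fin 4) : Prop :=
  (j = 0 ∧ l = 1) ∨ (j = 0 ∧ l = 2) ∨ (j = 0 ∧ l = 3) ∨ (j = 1 ∧ l = 2) ∨ (j = 1 ∧ l = 3)

def Sm (D : Finset E) : Prop := c D 0 + c D 1 ≤ 11 ∧ c D 0 + c D 2 ≤ 11 ∧ c D 0 + c D 3 ≤ 11 ∧
  c D 1 + c D 2 ≤ 11 ∧ c D 1 + c D 3 ≤ 11

def Ind (D : Finset E) : Prop := D.card ≤ 14 ∧ Sm D
def Bs (D : Finset E) : Prop := D.card = 14 ∧ Sm D

def Cov (D : Finset E) (f : E) : Prop :=
  (δ f 0 + δ f 1 = 1 ∧ 12 ≤ c D 0 + c D 1) ∨ (δ f 0 + δ f 2 = 1 ∧ 12 ≤ c D 0 + c D 2) ∨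
  (δ f 0 + δ f 3 = 1 ∧ 12 ≤ c D 0 + c D 3) ∨ (δ f 1 + δ f 2 = 1 ∧ 12 ≤ c D 1 + c D 2) ∨
  (δ f 1 + δ f 3 = 1 ∧ 12 ≤ c D 1 + c D 3) ∨
  (15 ≤ D.card ∧ 4 ≤ c D 2 + c D 3 + δ f 0 + δ f 1 ∧ 4 ≤ c D 1 + c D 3 + δ f 0 + δ f 2 ∧
    4 ≤ c D 1 + c D 2 + δ f 0 + δ f 3 ∧ 4 ≤ c D 0 + c D 3 + δ f 1 + δ f 2 ∧
    4 ≤ c D 0 + c D 2 + δ f 1 + δ f 3)

def CJ (C : Finset E) : Prop := C.card = 12 ∧ (c C 0 + c C 1 = 12 ∨ c C 0 + c C 2 = 12 ∨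
  c C 0 + c C 3 = 12 ∨ c C 1 + c C 2 = 12 ∨ c C 1 + c C 3 = 12)
def CS (C : Finset E) : Prop := C.card = 15 ∧ Sm C
def Circ (C : Finset E) : Prop := CJ C ∨ CS C

lemma cov_mono {D X : Finset E} (h : D ⊆ X) {f : E} (hc : Cov D f) : Cov X f := by
  have := c_mono h 0
  have := c_mono h 1
  have := c_mono h 2
  have := c_mono h 3
  have := card_le_card h
  unfold Cov at *
  omega

lemma circ_cov {C : Finset E} (h : Circ C) {f : E} (hf : f ∈ C) : Cov C f := by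
  have := c_erase hf 0
  have := c_erase hf 1
  have := c_erase hf 2
  have := c_erase hf 3
  have := card_eq C
  have := δ_sum f
  unfold Circ CJ CS Sm at h
  unfold Cov
  omega

lemma not_cov {B : Finset E} (h : Bs B) (f : E) : ¬ Cov B f := by
  unfold Bs Sm at h
  unfold Cov
  omega

def fl (X : Finset E) (j l : Fin 4) : Finset E := X.filter (fun g => g.1 = j ∨ g.1 = l)

lemma c_zero {C : Finset E} {m : Fin 4} (h : ∀ g ∈ C, g.1 ≠ m) : c C m = 0 := by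
  unfold c; rw [card_eq_zero, filter_eq_empty_iff]; exact h

lemma card_fl (X : Finset E) {j l : Fin 4} (h : pr j l) : (fl X j l).card = c X j + c X l := by
  unfold fl c
  rw [filter_or, card_union_of_disjoint]
  rw [disjoint_filter]
  rintro x - rfl h2
  rw [← h2] at h
  unfold pr at h
  omega

lemma cj_of {C : Finset E} {j l : Fin 4} (h : pr j l) (h1 : C.card = 12)
    (h2 : ∀ g ∈ C, g.1 = j ∨ g.1 = l) : CJ C := by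
  have e : fl C j l = C := filter_true_of_mem h2
  have := card_fl C h
  rw [e, h1] at this
  refine ⟨h1, ?_⟩
  rcases h with ⟨rfl, rfl⟩ | ⟨rfl, rfl⟩ | ⟨rfl, rfl⟩ | ⟨rfl, rfl⟩ | ⟨rfl, rfl⟩ <;> omega

lemma not_sm {X : Finset E} (h : ¬ Sm X) : ∃ j l, pr j l ∧ 12 ≤ c X j + c X l := by
  unfold Sm at h
  have : 12 ≤ c X 0 + c X 1 ∨ 12 ≤ c X 0 + c X 2 ∨ 12 ≤ c X 0 + c X 3 ∨ 12 ≤ c X 1 + c X 2 ∨
    12 ≤ c X 1 + c X 3 := by omega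
  rcases this with h | h | h | h | h
  exacts [⟨0, 1, by simp [pr], h⟩, ⟨0, 2, by simp [pr], h⟩, ⟨0, 3, by simp [pr], h⟩,
    ⟨1, 2, by simp [pr], h⟩, ⟨1, 3, by simp [pr], h⟩]

lemma sm_pr {X : Finset E} (h : Sm X) {j l : Fin 4} (hp : pr j l) : c X j + c X l ≤ 11 := by
  unfold Sm at h
  rcases hp with ⟨rfl, rfl⟩ | ⟨rfl, rfl⟩ | ⟨rfl, rfl⟩ | ⟨rfl, rfl⟩ | ⟨rfl, rfl⟩ <;> omega

def CovN (x0 x1 x2 x3 u0 u1 u2 u3 : ℕ) : Prop :=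
  (u0 + u1 = 1 ∧ 12 ≤ x0 + x1) ∨ (u0 + u2 = 1 ∧ 12 ≤ x0 + x2) ∨
  (u0 + u3 = 1 ∧ 12 ≤ x0 + x3) ∨ (u1 + u2 = 1 ∧ 12 ≤ x1 + x2) ∨
  (u1 + u3 = 1 ∧ 12 ≤ x1 + x3) ∨
  (15 ≤ x0 + x1 + x2 + x3 ∧ 4 ≤ x2 + x3 + u0 + u1 ∧ 4 ≤ x1 + x3 + u0 + u2 ∧
    4 ≤ x1 + x2 + u0 + u3 ∧ 4 ≤ x0 + x3 + u1 + u2 ∧ 4 ≤ x0 + x2 + u1 + u3)

lemma cov_iff (D : Finset E) (f : E) :
    Cov D f ↔ CovN (c D 0) (c D 1) (c D 2) (c D 3) (δ f 0) (δ f 1) (δ f 2) (δ f 3) := by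
  unfold Cov CovN; rw [card_eq]

lemma four {u0 u1 u2 u3 : ℕ} (h : u0 + u1 + u2 + u3 = 1) :
    (u0 = 1 ∧ u1 = 0 ∧ u2 = 0 ∧ u3 = 0) ∨ (u0 = 0 ∧ u1 = 1 ∧ u2 = 0 ∧ u3 = 0) ∨
    (u0 = 0 ∧ u1 = 0 ∧ u2 = 1 ∧ u3 = 0) ∨ (u0 = 0 ∧ u1 = 0 ∧ u2 = 0 ∧ u3 = 1) := by omega

lemma ar1 {z0 z1 z2 z3 y0 y1 y2 y3 u0 u1 u2 u3 v0 v1 v2 v3 w0 w1 w2 w3 : ℕ}
    (hu : u0 + u1 + u2 + u3 = 1) (hw : w0 + w1 + w2 + w3 = 1)
    (hw1 : y0 + w0 ≤ z0 ∧ y1 + w1 ≤ z1 ∧ y2 + w2 ≤ z2 ∧ y3 + w3 ≤ z3)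
    (hw2 : CovN (z0 + u0) (z1 + u1) (z2 + u2) (z3 + u3) w0 w1 w2 w3)
    (hv : v0 + v1 + v2 + v3 = 1)
    (h7 : z0 + u0 ≤ 7 ∧ z1 + u1 ≤ 7 ∧ z2 + u2 ≤ 7 ∧ z3 + u3 ≤ 7)
    (hy : y0 ≤ z0 ∧ y1 ≤ z1 ∧ y2 ≤ z2 ∧ y3 ≤ z3)
    (hf : (v0 ≤ y0 ∧ v1 ≤ y1 ∧ v2 ≤ y2 ∧ v3 ≤ y3) ∨
      (y0 + v0 ≤ z0 ∧ y1 + v1 ≤ z1 ∧ y2 + v2 ≤ z2 ∧ y3 + v3 ≤ z3))
    (h0 : y0 + y1 + y2 + y3 = 11)
    (hJ : y0 + u0 + (y1 + u1) = 12 ∨ y0 + u0 + (y2 + u2) = 12 ∨ y0 + u0 + (y3 + u3) = 12 ∨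
      y1 + u1 + (y2 + u2) = 12 ∨ y1 + u1 + (y3 + u3) = 12)
    (h2 : CovN (z0 + u0) (z1 + u1) (z2 + u2) (z3 + u3) v0 v1 v2 v3) :
    CovN z0 z1 z2 z3 v0 v1 v2 v3 := by
  have k : (y2 + u2 + y3 + u3 = 0 ∧ (12 ≤ z0 + z1 ∨ 4 ≤ z2 + z3)) ∨
      (y1 + u1 + y3 + u3 = 0 ∧ (12 ≤ z0 + z2 ∨ 4 ≤ z1 + z3)) ∨
      (y1 + u1 + y2 + u2 = 0 ∧ (12 ≤ z0 + z3 ∨ 4 ≤ z1 + z2)) ∨
      (y0 + u0 + y3 + u3 = 0 ∧ (12 ≤ z1 + z2 ∨ 4 ≤ z0 + z3)) ∨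
      (y0 + u0 + y2 + u2 = 0 ∧ (12 ≤ z1 + z3 ∨ 4 ≤ z0 + z2)) := by
    clear h2 hf
    unfold CovN at hw2
    rcases hJ with h | h | h | h | h
    · left; omega
    · right; left; omega
    · right; right; left; omega
    · right; right; right; left; omega
    · right; right; right; right; omega
  clear hw hw1 hw2 hJ
  unfold CovN at *
  rcases four hu with ⟨rfl, rfl, rfl, rfl⟩ | ⟨rfl, rfl, rfl, rfl⟩ | ⟨rfl, rfl, rfl, rfl⟩ |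
    ⟨rfl, rfl, rfl, rfl⟩ <;>
  rcases four hv with ⟨rfl, rfl, rfl, rfl⟩ | ⟨rfl, rfl, rfl, rfl⟩ | ⟨rfl, rfl, rfl, rfl⟩ |
    ⟨rfl, rfl, rfl, rfl⟩ <;>
  simp only [Nat.reduceAdd, Nat.reduceEqDiff, false_and, true_and, false_or, or_false,
    add_zero] at * <;> omega

lemma ar2 {z0 z1 z2 z3 y0 y1 y2 y3 u0 u1 u2 u3 v0 v1 v2 v3 : ℕ} (hu : u0 + u1 + u2 + u3 = 1)
    (hv : v0 + v1 + v2 + v3 = 1)
    (hy : y0 ≤ z0 ∧ y1 ≤ z1 ∧ y2 ≤ z2 ∧ y3 ≤ z3)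
    (hf : (v0 ≤ y0 ∧ v1 ≤ y1 ∧ v2 ≤ y2 ∧ v3 ≤ y3) ∨
      (y0 + v0 ≤ z0 ∧ y1 + v1 ≤ z1 ∧ y2 + v2 ≤ z2 ∧ y3 + v3 ≤ z3))
    (hs : y0 + y1 + y2 + y3 < z0 + z1 + z2 + z3) (h0 : y0 + y1 + y2 + y3 = 14)
    (hJ : y0 + u0 + (y1 + u1) ≤ 11 ∧ y0 + u0 + (y2 + u2) ≤ 11 ∧ y0 + u0 + (y3 + u3) ≤ 11 ∧
      y1 + u1 + (y2 + u2) ≤ 11 ∧ y1 + u1 + (y3 + u3) ≤ 11)
    (h3 : ¬ CovN z0 z1 z2 z3 v0 v1 v2 v3) :
    (u0 + u1 = 0 ∧ y0 + u0 + (y1 + u1) = 11 ∧ z2 ≤ y2 ∧ z3 ≤ y3) ∨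
    (u0 + u2 = 0 ∧ y0 + u0 + (y2 + u2) = 11 ∧ z1 ≤ y1 ∧ z3 ≤ y3) ∨
    (u0 + u3 = 0 ∧ y0 + u0 + (y3 + u3) = 11 ∧ z1 ≤ y1 ∧ z2 ≤ y2) ∨
    (u1 + u2 = 0 ∧ y1 + u1 + (y2 + u2) = 11 ∧ z0 ≤ y0 ∧ z3 ≤ y3) ∨
    (u1 + u3 = 0 ∧ y1 + u1 + (y3 + u3) = 11 ∧ z0 ≤ y0 ∧ z2 ≤ y2) := by
  unfold CovN at h3
  simp only [not_or] at h3
  have h4 := h3.2.2.2.2.2
  clear h3
  rcases four hu with ⟨rfl, rfl, rfl, rfl⟩ | ⟨rfl, rfl, rfl, rfl⟩ | ⟨rfl, rfl, rfl, rfl⟩ |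
    ⟨rfl, rfl, rfl, rfl⟩ <;>
  rcases four hv with ⟨rfl, rfl, rfl, rfl⟩ | ⟨rfl, rfl, rfl, rfl⟩ | ⟨rfl, rfl, rfl, rfl⟩ |
    ⟨rfl, rfl, rfl, rfl⟩ <;>
  simp only [Nat.reduceAdd, Nat.reduceEqDiff, false_and, true_and, false_or, or_false,
    add_zero] at * <;> omega

lemma key {C X : Finset E} (hCX : C ⊆ X) (hC : Circ C) {e f : E} (he : e ∈ C) (hf : f ∈ X.erase e)
    (h1 : ∀ g ∈ X, Cov X g) (h3 : ¬ Cov (X.erase e) f) :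
    X ⊆ C ∨ (CS C ∧ ∃ j l, pr j l ∧ e.1 ≠ j ∧ e.1 ≠ l ∧ c C j + c C l = 11 ∧
      ∀ g ∈ X, g ∈ C ∨ g.1 = j ∨ g.1 = l) := by
  have hy := fun l => c_mono (erase_subset_erase e hCX) l
  have b := fun l => c_erase (hCX he) l
  have d := fun l => c_erase he l
  have f7 : ∀ l, c (X.erase e) l + δ e l ≤ 7 := fun l => by rw [b]; exact c_le X l
  have hf' : (∀ l, δ f l ≤ c (C.erase e) l) ∨ ∀ l, c (C.erase e) l + δ f l ≤ c (X.erase e) l := by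
    by_cases h : f ∈ C.erase e
    · exact Or.inl fun l => by have := c_erase h l; omega
    · refine Or.inr fun l => ?_
      rw [← c_insert h]
      exact c_mono (insert_subset hf (erase_subset_erase e hCX)) l
  have hf2 := hf'.imp (fun h => (⟨h 0, h 1, h 2, h 3⟩ : _ ∧ _ ∧ _ ∧ _))
    (fun h => (⟨h 0, h 1, h 2, h 3⟩ : _ ∧ _ ∧ _ ∧ _))
  have g1 := card_eq (C.erase e)
  have g2 := card_eq (X.erase e)
  have g3 := card_erase_add_one he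
  have g4 := card_erase_add_one (hCX he)
  by_cases hs : X.card ≤ C.card
  · exact Or.inl (eq_of_subset_of_card_le hCX hs).ge
  right
  have h2 := h1 f (mem_of_mem_erase hf)
  obtain ⟨g, hg, hg'⟩ := exists_mem_notMem_of_card_lt_card (not_le.1 hs)
  have h4 := h1 g hg
  have h5 : ∀ l, c (C.erase e) l + δ g l ≤ c (X.erase e) l := fun l => by
    rw [← c_insert (fun h => hg' (mem_of_mem_erase h))]
    exact c_mono (insert_subset (mem_erase.2 ⟨fun h => hg' (by rw [h]; exact he), hg⟩)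
      (erase_subset_erase e hCX)) l
  rw [cov_iff] at h2 h3 h4
  rw [← b 0, ← b 1, ← b 2, ← b 3] at h2 h4
  have hS : CS C := by
    refine hC.resolve_left fun hJ => h3 ?_
    obtain ⟨j1, j2⟩ := hJ
    rw [← d 0, ← d 1, ← d 2, ← d 3] at j2
    exact ar1 (δ_sum e) (δ_sum g) ⟨h5 0, h5 1, h5 2, h5 3⟩ h4 (δ_sum f) ⟨f7 0, f7 1, f7 2, f7 3⟩
      ⟨hy 0, hy 1, hy 2, hy 3⟩ hf2 (by omega) j2 h2
  refine ⟨hS, ?_⟩
  have fin : ∀ j l m n : Fin 4, pr j l → (∀ i : Fin 4, i = j ∨ i = l ∨ i = m ∨ i = n) →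
      δ e j + δ e l = 0 → c C j + c C l = 11 → c X m ≤ c C m → c X n ≤ c C n →
      ∃ j l, pr j l ∧ e.1 ≠ j ∧ e.1 ≠ l ∧ c C j + c C l = 11 ∧
        ∀ g ∈ X, g ∈ C ∨ g.1 = j ∨ g.1 = l := by
    intro j l m n p1 p2 p3 p4 p5 p6
    refine ⟨j, l, p1, fun h => ?_, fun h => ?_, p4, fun g hg => ?_⟩
    · have := δ_of h; omega
    · have := δ_of h; omega
    · rcases p2 g.1 with h | h | h | h
      · exact Or.inr (Or.inl h)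
      · exact Or.inr (Or.inr h)
      · exact Or.inl (mem_of_c hCX (by rw [h]; exact p5) hg)
      · exact Or.inl (mem_of_c hCX (by rw [h]; exact p6) hg)
  have : (δ e 0 + δ e 1 = 0 ∧ c C 0 + c C 1 = 11 ∧ c X 2 ≤ c C 2 ∧ c X 3 ≤ c C 3) ∨
      (δ e 0 + δ e 2 = 0 ∧ c C 0 + c C 2 = 11 ∧ c X 1 ≤ c C 1 ∧ c X 3 ≤ c C 3) ∨
      (δ e 0 + δ e 3 = 0 ∧ c C 0 + c C 3 = 11 ∧ c X 1 ≤ c C 1 ∧ c X 2 ≤ c C 2) ∨
      (δ e 1 + δ e 2 = 0 ∧ c C 1 + c C 2 = 11 ∧ c X 0 ≤ c C 0 ∧ c X 3 ≤ c C 3) ∨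
      (δ e 1 + δ e 3 = 0 ∧ c C 1 + c C 3 = 11 ∧ c X 0 ≤ c C 0 ∧ c X 2 ≤ c C 2) := by
    obtain ⟨j1, j2⟩ := hS
    unfold Sm at j2
    rw [← d 0, ← d 1, ← d 2, ← d 3] at j2 ⊢
    rw [← b 0, ← b 1, ← b 2, ← b 3]
    simp only [add_le_add_iff_right]
    exact ar2 (δ_sum e) (δ_sum f) ⟨hy 0, hy 1, hy 2, hy 3⟩ hf2 (by omega) (by omega) j2 h3
  rcases this with h | h | h | h | h
  · exact fin 0 1 2 3 (by simp [pr]) (by decide) h.1 h.2.1 h.2.2.1 h.2.2.2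
  · exact fin 0 2 1 3 (by simp [pr]) (by decide) h.1 h.2.1 h.2.2.1 h.2.2.2
  · exact fin 0 3 1 2 (by simp [pr]) (by decide) h.1 h.2.1 h.2.2.1 h.2.2.2
  · exact fin 1 2 0 3 (by simp [pr]) (by decide) h.1 h.2.1 h.2.2.1 h.2.2.2
  · exact fin 1 3 0 2 (by simp [pr]) (by decide) h.1 h.2.1 h.2.2.1 h.2.2.2

lemma fund {B : Finset E} (hB : Bs B) {g : E} (hg : g ∉ B) :
    ∃ C, Circ C ∧ g ∈ C ∧ C ⊆ insert g B := by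
  by_cases hs : Sm (insert g B)
  · exact ⟨_, Or.inr ⟨by rw [card_insert_of_notMem hg, hB.1], hs⟩, mem_insert_self _ _, subset_rfl⟩
  obtain ⟨j, l, hp, h⟩ := not_sm hs
  have k := sm_pr hB.2 hp
  have k1 := c_insert hg j
  have k2 := c_insert hg l
  have k3 : δ g j + δ g l ≤ 1 := by
    have := δ_sum g
    rcases hp with ⟨rfl, rfl⟩ | ⟨rfl, rfl⟩ | ⟨rfl, rfl⟩ | ⟨rfl, rfl⟩ | ⟨rfl, rfl⟩ <;> omega
  refine ⟨fl (insert g B) j l, Or.inl (cj_of hp (by rw [card_fl _ hp]; omega)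
    (fun x hx => (mem_filter.1 hx).2)), mem_filter.2 ⟨mem_insert_self _ _, ?_⟩, filter_subset _ _⟩
  by_cases h1 : δ g j = 1
  · exact Or.inl (of_δ h1)
  · exact Or.inr (of_δ (by omega))

lemma ex_circ {B : Finset E} (h : ¬ Sm B) : ∃ C, Circ C ∧ C ⊆ B ∧ C.Nonempty := by
  obtain ⟨j, l, hp, h⟩ := not_sm h
  rw [← card_fl _ hp] at h
  obtain ⟨C, h1, h2⟩ := exists_subset_card_eq h
  exact ⟨C, Or.inl (cj_of hp h2 fun x hx => (mem_filter.1 (h1 hx)).2),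
    h1.trans (filter_subset _ _), card_pos.1 (by omega)⟩

lemma swap_bs {B : Finset E} (hB : Bs B) {g f : E} (hg : g ∉ B) (hf : f ∈ insert g B)
    (h : Cov (insert g B) f) : Bs ((insert g B).erase f) := by
  have a0 := c_erase hf 0
  have a1 := c_erase hf 1
  have a2 := c_erase hf 2
  have a3 := c_erase hf 3
  have b0 := c_insert hg 0
  have b1 := c_insert hg 1
  have b2 := c_insert hg 2
  have b3 := c_insert hg 3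
  have f0 := c_le (insert g B) 0
  have f1 := c_le (insert g B) 1
  have f2 := c_le (insert g B) 2
  have f3 := c_le (insert g B) 3
  have g1 := card_eq B
  have g2 := card_eq (insert g B)
  have g3 := card_eq ((insert g B).erase f)
  have g4 := δ_sum g
  have g5 := δ_sum f
  unfold Bs Sm at *
  unfold Cov at h
  omega

lemma aug {I K : Finset E} (hI : Ind I) (hK : Ind K) (h : I.card < K.card) :
    ∃ e ∈ K, e ∉ I ∧ Ind (insert e I) := by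
  by_contra hh
  push Not at hh
  have k1 : ∀ e ∈ K, e ∉ I → ∃ j l, pr j l ∧ c I j + c I l = 11 ∧ (e.1 = j ∨ e.1 = l) := by
    intro e he he'
    have h2 : ¬ Sm (insert e I) := fun hs =>
      hh e he he' ⟨by rw [card_insert_of_notMem he']; have := hK.1; omega, hs⟩
    obtain ⟨j, l, hp, h3⟩ := not_sm h2
    have k := sm_pr hI.2 hp
    rw [c_insert he', c_insert he'] at h3
    have k3 : δ e j + δ e l ≤ 1 := by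
      have := δ_sum e
      rcases hp with ⟨rfl, rfl⟩ | ⟨rfl, rfl⟩ | ⟨rfl, rfl⟩ | ⟨rfl, rfl⟩ | ⟨rfl, rfl⟩ <;> omega
    refine ⟨j, l, hp, by omega, ?_⟩
    by_cases h1 : δ e j = 1
    · exact Or.inl (of_δ h1)
    · exact Or.inr (of_δ (by omega))
  obtain ⟨e, he, he'⟩ := exists_mem_notMem_of_card_lt_card h
  obtain ⟨j, l, hp, h3, -⟩ := k1 e he he'
  have g1 := card_eq I
  have g2 := card_eq K
  have f0 := c_le I 0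
  have f1 := c_le I 1
  have f2 := c_le I 2
  have f3 := c_le I 3
  have hK1 := hK.1
  have k2 : ∀ m, m ≠ j → m ≠ l → c K m ≤ c I m := by
    intro m m1 m2
    apply card_le_card
    intro x hx
    obtain ⟨x1, x2⟩ := mem_filter.1 hx
    refine mem_filter.2 ⟨?_, x2⟩
    by_contra x3
    obtain ⟨j', l', hp', h4, h5⟩ := k1 x x1 x3
    rw [x2] at h5
    rcases hp with ⟨rfl, rfl⟩ | ⟨rfl, rfl⟩ | ⟨rfl, rfl⟩ | ⟨rfl, rfl⟩ | ⟨rfl, rfl⟩ <;>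
    rcases hp' with ⟨rfl, rfl⟩ | ⟨rfl, rfl⟩ | ⟨rfl, rfl⟩ | ⟨rfl, rfl⟩ | ⟨rfl, rfl⟩ <;> omega
  have k3 := sm_pr hK.2 hp
  have m0 := k2 0
  have m1 := k2 1
  have m2 := k2 2
  have m3 := k2 3
  rcases hp with ⟨rfl, rfl⟩ | ⟨rfl, rfl⟩ | ⟨rfl, rfl⟩ | ⟨rfl, rfl⟩ | ⟨rfl, rfl⟩ <;> omega

end Pool.Agent.H.MP_dbb207_co
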