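import Pool.Agent.H.MP_dbb207_co.A

set_option autoImplicit false

namespace Pool.Agent.H.MP_dbb207_co

open Finset

abbrev F := ZMod 2
abbrev V := ℕ →₀ F

open Classical in
noncomputable def sp (k : E → V) : Finset E := univ.filter fun g => k g ≠ 0

lemma mem_sp {k : E → V} {g : E} : g ∈ sp k ↔ k g ≠ 0 := by simp [sp]

def Good (K : Submodule F (E → V)) : Prop := ∀ k ∈ K, ∀ f ∈ sp k, Cov (sp k) f

def Bd (n : ℕ) (K : Submodule F (E → V)) : Prop := ∀ k ∈ K, ∀ g m, n ≤ m → k g m = 0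

noncomputable def nw (n : ℕ) (d : Finset E × E × V) : E → V := fun g =>
  if g = d.2.1 then d.2.2 else if g ∈ d.1 then Finsupp.single n 1 else 0

lemma ex_enum : ∃ s : ℕ → Finset E × E × V, ∀ d N, ∃ n, N ≤ n ∧ s n = d := by
  obtain ⟨s, hs⟩ := exists_surjective_nat (Finset E × E × V)
  refine ⟨fun n => s n.unpair.1, fun d N => ?_⟩
  obtain ⟨a, rfl⟩ := hs d
  exact ⟨Nat.pair a N, Nat.right_le_pair _ _, by simp⟩

open Classical in
noncomputable def KK (s : ℕ → Finset E × E × V) : ℕ → Submodule F (E → V)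
  | 0 => ⊥
  | n + 1 => if Good (KK s n ⊔ F ∙ nw n (s n)) ∧ Bd (n + 1) (KK s n ⊔ F ∙ nw n (s n))
      then KK s n ⊔ F ∙ nw n (s n) else KK s n

variable {s : ℕ → Finset E × E × V}

lemma KK_ok (n : ℕ) : Good (KK s n) ∧ Bd n (KK s n) := by
  induction n with
  | zero =>
    constructor
    · intro k hk f hf
      rw [KK, Submodule.mem_bot] at hk
      subst hk; simp [mem_sp] at hf
    · intro k hk g m _
      rw [KK, Submodule.mem_bot] at hk
      subst hk; simp
  | succ n ih =>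
    rw [KK]
    split_ifs with h
    · exact h
    · exact ⟨ih.1, fun k hk g m hm => ih.2 k hk g m (by omega)⟩

lemma KK_mono : Monotone (KK s) := by
  apply monotone_nat_of_le_succ
  intro n
  rw [KK]
  split_ifs
  · exact le_sup_left
  · exact le_rfl

noncomputable def KI (s : ℕ → Finset E × E × V) : Submodule F (E → V) := ⨆ n, KK s n

lemma mem_KI {k : E → V} : k ∈ KI s ↔ ∃ n, k ∈ KK s n :=
  Submodule.mem_iSup_of_directed _ KK_mono.directed_le

lemma KI_good : Good (KI s) := fun k hk => by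
  obtain ⟨n, hn⟩ := mem_KI.1 hk
  exact (KK_ok n).1 k hn

lemma two (a : F) : a = 0 ∨ a = 1 := by revert a; decide

lemma step (hs : ∀ d N, ∃ n, N ≤ n ∧ s n = d) {C : Finset E} (hC : Circ C) {e : E} (he : e ∈ C)
    (v : V) : ∃ k ∈ KI s, k e = v ∧ (sp k ⊆ C ∨ (CS C ∧ ∃ j l, pr j l ∧ e.1 ≠ j ∧ e.1 ≠ l ∧
      c C j + c C l = 11 ∧ ∀ g ∈ sp k, g ∈ C ∨ g.1 = j ∨ g.1 = l)) := by
  by_cases hv : v = 0
  · exact ⟨0, zero_mem _, by simp [hv], Or.inl fun g hg => by simp [mem_sp] at hg⟩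
  obtain ⟨n, hn, e1⟩ := hs (C, e, v) (v.support.sup id + 1)
  have hvn : ∀ m, n ≤ m → v m = 0 := by
    intro m hm
    by_contra h
    have := le_sup (f := id) (Finsupp.mem_support_iff.2 h)
    simp only [id] at this
    omega
  have w1 : nw n (s n) e = v := by simp [nw, e1]
  have w2 : ∀ g, g ≠ e → g ∈ C → nw n (s n) g = Finsupp.single n 1 := fun g h1 h2 => by
    simp [nw, e1, h1, h2]
  have w3 : ∀ g, g ∉ C → nw n (s n) g = 0 := fun g h2 => by
    have h1 : g ≠ e := fun h => h2 (by rw [h]; exact he)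
    simp [nw, e1, h1, h2]
  obtain ⟨G, B⟩ := KK_ok (s := s) n
  have dec : ∀ k ∈ KK s n ⊔ F ∙ nw n (s n), k ∈ KK s n ∨ ∃ k' ∈ KK s n, k = k' + nw n (s n) := by
    intro k hk
    obtain ⟨k', h1, z, h2, rfl⟩ := Submodule.mem_sup.1 hk
    obtain ⟨a, rfl⟩ := Submodule.mem_span_singleton.1 h2
    rcases two a with rfl | rfl
    · left; simpa using h1
    · right; exact ⟨k', h1, by simp⟩
  have hB : Bd (n + 1) (KK s n ⊔ F ∙ nw n (s n)) := by
    intro k hk g m hm
    rcases dec k hk with h | ⟨k', h, rfl⟩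
    · exact B k h g m (by omega)
    · rw [Pi.add_apply, Finsupp.add_apply, B k' h g m (by omega), zero_add]
      by_cases h1 : g = e
      · rw [h1, w1]; exact hvn m (by omega)
      by_cases h2 : g ∈ C
      · rw [w2 g h1 h2, Finsupp.single_eq_of_ne (by omega)]
      · rw [w3 g h2]; rfl
  by_cases hG : Good (KK s n ⊔ F ∙ nw n (s n))
  · refine ⟨nw n (s n), mem_KI.2 ⟨n + 1, ?_⟩, w1, Or.inl fun g hg => ?_⟩
    · rw [KK, if_pos ⟨hG, hB⟩]
      exact Submodule.mem_sup_right (Submodule.mem_span_singleton_self _)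
    · by_contra h; exact mem_sp.1 hg (w3 g h)
  unfold Good at hG
  push Not at hG
  obtain ⟨k, hk, f, hf, hc⟩ := hG
  rcases dec k hk with h | ⟨k', h, rfl⟩
  · exact absurd (G k h f hf) hc
  have hX : ∀ g ∈ sp k' ∪ C, Cov (sp k' ∪ C) g := by
    intro g hg
    rcases mem_union.1 hg with h1 | h1
    · exact cov_mono subset_union_left (G k' h g h1)
    · exact cov_mono subset_union_right (circ_cov hC h1)
  have m1 : ∀ g, g ≠ e → (g ∈ sp (k' + nw n (s n)) ↔ g ∈ sp k' ∪ C) := by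
    intro g h1
    rw [mem_union, mem_sp, mem_sp, Pi.add_apply]
    by_cases h2 : g ∈ C
    · rw [w2 g h1 h2]
      simp only [h2, or_true, iff_true]
      intro h3
      have := congrArg (fun x : V => x n) h3
      simp [B k' h g n le_rfl] at this
    · rw [w3 g h2]; simp [h2]
  by_cases h0 : e ∈ sp (k' + nw n (s n))
  · have : sp (k' + nw n (s n)) = sp k' ∪ C := by
      ext g
      by_cases h1 : g = e
      · rw [h1]; simp [h0, he]
      · exact m1 g h1
    rw [this] at hf hc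
    exact absurd (hX f hf) hc
  have e2 : sp (k' + nw n (s n)) = (sp k' ∪ C).erase e := by
    ext g
    by_cases h1 : g = e
    · rw [h1]; simp [h0]
    · rw [m1 g h1, mem_erase]; simp [h1]
  rw [e2] at hf hc
  have e3 : (-k') e = v := by
    rw [mem_sp, not_not, Pi.add_apply, w1] at h0
    exact neg_eq_of_add_eq_zero_right h0
  have e4 : sp (-k') = sp k' := by ext g; simp [mem_sp]
  refine ⟨-k', neg_mem (mem_KI.2 ⟨n, h⟩), e3, ?_⟩
  rw [e4]
  rcases key subset_union_right hC he hf hX hc with h1 | ⟨h1, j, l, p1, p2, p3, p4, p5⟩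
  · exact Or.inl (subset_union_left.trans h1)
  · exact Or.inr ⟨h1, j, l, p1, p2, p3, p4, fun g hg => p5 g (mem_union_left _ hg)⟩

lemma demand (hs : ∀ d N, ∃ n, N ≤ n ∧ s n = d) {C : Finset E} (hC : Circ C) {e : E} (he : e ∈ C)
    (v : V) : ∃ k ∈ KI s, k e = v ∧ sp k ⊆ C := by
  obtain ⟨k, h1, h2, h3 | ⟨h3, j, l, p1, p2, p3, p4, p5⟩⟩ := step hs hC he v
  · exact ⟨k, h1, h2, h3⟩
  have ex : ∀ g ∈ sp k \ C, ∃ x ∈ KI s, x g = k g ∧ sp x ⊆ insert g (fl C j l) := by
    intro g hg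
    obtain ⟨g1, g2⟩ := mem_sdiff.1 hg
    have g3 : g ∉ fl C j l := fun h => g2 (mem_filter.1 h).1
    have hJ : CJ (insert g (fl C j l)) := by
      apply cj_of p1 (by rw [card_insert_of_notMem g3, card_fl _ p1, p4])
      intro x hx
      rcases mem_insert.1 hx with rfl | hx
      · exact (p5 x g1).resolve_left g2
      · exact (mem_filter.1 hx).2
    obtain ⟨x, x1, x2, x3 | ⟨x3, -⟩⟩ := step hs (Or.inl hJ) (mem_insert_self _ _) (k g)
    · exact ⟨x, x1, x2, x3⟩
    · have := x3.1; have := hJ.1; omega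
  choose! x x1 x2 x3 using ex
  have z : ∀ g ∈ sp k \ C, ∀ y, y ≠ g → y ∉ fl C j l → x g y = 0 := by
    intro g hg y y1 y2
    by_contra h
    rcases mem_insert.1 (x3 g hg (mem_sp.2 h)) with h | h
    · exact y1 h
    · exact y2 h
  refine ⟨k - ∑ g ∈ sp k \ C, x g, sub_mem h1 (sum_mem x1), ?_, fun y hy => ?_⟩
  · rw [Pi.sub_apply, Finset.sum_apply, sum_eq_zero, sub_zero, h2]
    intro g hg
    apply z g hg
    · rintro rfl; exact (mem_sdiff.1 hg).2 he
    · intro h
      rcases (mem_filter.1 h).2 with h | h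
      · exact p2 h
      · exact p3 h
  · by_contra hC'
    apply mem_sp.1 hy
    have y2 : y ∉ fl C j l := fun h => hC' (mem_filter.1 h).1
    rw [Pi.sub_apply, Finset.sum_apply]
    by_cases h0 : y ∈ sp k
    · have hy' := mem_sdiff.2 ⟨h0, hC'⟩
      rw [sum_eq_single_of_mem y hy' fun g hg hne => z g hg y hne.symm y2, x2 y hy', sub_self]
    · rw [sum_eq_zero, sub_zero]
      · rwa [mem_sp, not_not] at h0
      · intro g hg
        exact z g hg y (by rintro rfl; exact h0 (mem_sdiff.1 hg).1) y2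

theorem ex_K : ∃ K : Submodule F (E → V), Good K ∧ ∀ C, Circ C → ∀ e ∈ C, ∀ v,
    ∃ k ∈ K, k e = v ∧ sp k ⊆ C := by
  obtain ⟨s, hs⟩ := ex_enum
  exact ⟨KI s, KI_good, fun C hC e he v => demand hs hC he v⟩

end Pool.Agent.H.MP_dbb207_co
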