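import Pool.Agent.H.MP_dbb207_co.B

set_option autoImplicit false

namespace Pool.Agent.H.MP_dbb207_co

open Finset

noncomputable def ext (b : Fin 14 ↪ E) : (Fin 14 → V) →ₗ[F] (E → V) :=
  ∑ i, (LinearMap.single F (fun _ : E => V) (b i)) ∘ₗ LinearMap.proj i

lemma ext_apply (b : Fin 14 ↪ E) (y : Fin 14 → V) (g : E) :
    ext b y g = ∑ i, (Pi.single (b i) (y i) : E → V) g := by
  simp [ext, Finset.sum_apply]

lemma ext_in (b : Fin 14 ↪ E) (y : Fin 14 → V) (i : Fin 14) : ext b y (b i) = y i := by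
  rw [ext_apply, sum_eq_single i]
  · simp
  · intro l _ h; exact Pi.single_eq_of_ne (fun e => h (b.injective e).symm) _
  · simp

lemma ext_out (b : Fin 14 ↪ E) (y : Fin 14 → V) {g : E} (h : g ∉ univ.map b) : ext b y g = 0 := by
  rw [ext_apply]
  exact sum_eq_zero fun i _ => Pi.single_eq_of_ne (fun e => h (by simp [e])) _

lemma sp_ext (b : Fin 14 ↪ E) (y : Fin 14 → V) : sp (ext b y) ⊆ univ.map b := fun g hg => by
  by_contra h; exact mem_sp.1 hg (ext_out b y h)

lemma ext_eq (b : Fin 14 ↪ E) {x : E → V} (h : sp x ⊆ univ.map b) : ext b (fun i => x (b i)) = x := by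
  funext g
  by_cases hg : g ∈ univ.map b
  · obtain ⟨i, -, rfl⟩ := mem_map.1 hg
    rw [ext_in]
  · rw [ext_out b _ hg]
    by_contra h1; exact hg (h (mem_sp.2 (Ne.symm h1)))

lemma ext_single (b : Fin 14 ↪ E) (l : Fin 14) (v : V) :
    ext b (Pi.single l v) = Pi.single (b l) v := by
  rw [← ext_eq b (x := Pi.single (b l) v)]
  · congr 1
    funext i
    by_cases h : i = l
    · subst h; simp
    · rw [Pi.single_eq_of_ne h, Pi.single_eq_of_ne (fun e => h (b.injective e))]
  · intro g hg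
    by_contra h
    exact mem_sp.1 hg (Pi.single_eq_of_ne (fun e => h (by simp [e])) _)

def Dem (K : Submodule F (E → V)) : Prop :=
  ∀ C, Circ C → ∀ e ∈ C, ∀ v, ∃ k ∈ K, k e = v ∧ sp k ⊆ C

variable {K : Submodule F (E → V)}

lemma inj (G : Good K) {B : Finset E} (hB : Bs B) {k : E → V} (hk : k ∈ K) (h : sp k ⊆ B) :
    k = 0 := by
  funext g
  by_contra h1
  exact not_cov hB g (cov_mono h (G k hk g (mem_sp.2 h1)))

lemma rel (D : Dem K) {B : Finset E} (hB : Bs B) {g : E} (hg : g ∉ B) (v : V) :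
    ∃ k ∈ K, k g = v ∧ sp k ⊆ insert g B := by
  obtain ⟨C, h1, h2, h3⟩ := fund hB hg
  obtain ⟨k, k1, k2, k3⟩ := D C h1 g h2 v
  exact ⟨k, k1, k2, k3.trans h3⟩

lemma spn (D : Dem K) {B : Finset E} (hB : Bs B) (x : E → V) : ∃ y, sp y ⊆ B ∧ x - y ∈ K := by
  have ex : ∀ g, ∃ y, sp y ⊆ B ∧ Pi.single g (x g) - y ∈ K := by
    intro g
    by_cases hg : g ∈ B
    · refine ⟨Pi.single g (x g), fun z hz => ?_, by simp⟩
      by_contra h
      exact mem_sp.1 hz (Pi.single_eq_of_ne (by rintro rfl; exact h hg) _)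
    · obtain ⟨k, k1, k2, k3⟩ := rel D hB hg (x g)
      refine ⟨Pi.single g (x g) - k, fun z hz => ?_, by simpa using k1⟩
      rw [mem_sp, Pi.sub_apply] at hz
      by_cases h : z = g
      · subst h; simp [k2] at hz
      · rw [Pi.single_eq_of_ne h, zero_sub, neg_ne_zero] at hz
        exact (mem_insert.1 (k3 (mem_sp.2 hz))).resolve_left h
  choose y y1 y2 using ex
  refine ⟨∑ g, y g, fun z hz => ?_, ?_⟩
  · by_contra h
    apply mem_sp.1 hz
    rw [Finset.sum_apply]
    exact sum_eq_zero fun g _ => by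
      by_contra h1; exact h (y1 g (mem_sp.2 h1))
  · have := sum_mem fun g (_ : g ∈ univ) => y2 g
    rwa [sum_sub_distrib, Finset.univ_sum_single] at this

lemma bij {W : Type} [AddCommGroup W] [Module F W] (φ : (E → V) →ₗ[F] W)
    (hφ : Function.Surjective φ) (G : Good (LinearMap.ker φ)) (D : Dem (LinearMap.ker φ))
    {b : Fin 14 ↪ E} : Function.Bijective (φ ∘ₗ ext b) ↔ Bs (univ.map b) := by
  constructor
  · intro h
    refine ⟨by simp, ?_⟩
    by_contra hs
    obtain ⟨C, h1, h2, e, he⟩ := ex_circ hs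
    obtain ⟨k, k1, k2, k3⟩ := D C h1 e he (Finsupp.single 0 1)
    have e1 := ext_eq b (k3.trans h2)
    have e2 : (fun i => k (b i)) = 0 := by
      apply h.1
      rw [map_zero, LinearMap.comp_apply, e1]; exact k1
    rw [e2, map_zero] at e1
    rw [← e1] at k2
    simpa using congrArg (fun x : V => x 0) k2
  · intro hB
    constructor
    · rw [injective_iff_map_eq_zero]
      intro y hy
      have := inj G hB (k := ext b y) hy (sp_ext b y)
      funext i
      rw [← ext_in b y i, this]; rfl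
    · intro w
      obtain ⟨x, rfl⟩ := hφ w
      obtain ⟨y, y1, y2⟩ := spn D hB x
      refine ⟨fun i => y (b i), ?_⟩
      rw [LinearMap.comp_apply, ext_eq b y1]
      rw [LinearMap.mem_ker, map_sub, sub_eq_zero] at y2
      exact y2.symm

def b0 : Fin 14 ↪ E :=
  ⟨fun i => (if i.1 < 7 then 2 else 3, ⟨i.1 % 7, Nat.mod_lt _ (by norm_num)⟩), by decide⟩

lemma bs_b0 : Bs (univ.map b0) := by unfold Bs Sm; decide

theorem ex_phi : ∃ φ : (E → V) →ₗ[F] (Fin 14 → V), Function.Surjective φ ∧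
    Good (LinearMap.ker φ) ∧ Dem (LinearMap.ker φ) := by
  obtain ⟨K, G, D⟩ := ex_K
  have h := (bij K.mkQ K.mkQ_surjective (by rw [K.ker_mkQ]; exact G) (by rw [K.ker_mkQ]; exact D)).2
    bs_b0
  let e := LinearEquiv.ofBijective _ h
  have hk : LinearMap.ker (e.symm.toLinearMap ∘ₗ K.mkQ) = K := by
    rw [LinearEquiv.ker_comp, K.ker_mkQ]
  exact ⟨e.symm.toLinearMap ∘ₗ K.mkQ, e.symm.surjective.comp K.mkQ_surjective,
    by rw [hk]; exact G, by rw [hk]; exact D⟩

noncomputable def AA (φ : (E → V) →ₗ[F] (Fin 14 → V)) : Matrix (Fin 14) E (Module.End F V) :=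
  fun i j => (LinearMap.proj i) ∘ₗ φ ∘ₗ (LinearMap.single F (fun _ : E => V) j)

lemma sub_eq (φ : (E → V) →ₗ[F] (Fin 14 → V)) (b : Fin 14 ↪ E) :
    (AA φ).submatrix id b = endVecRingEquivMatrixEnd (Fin 14) F V (φ ∘ₗ ext b) := by
  ext1 i l
  apply LinearMap.ext
  intro x
  simp [AA, ext_single]

variable {φ : (E → V) →ₗ[F] (Fin 14 → V)}

lemma unit_iff (hφ : Function.Surjective φ) (G : Good (LinearMap.ker φ))
    (D : Dem (LinearMap.ker φ)) (b : Fin 14 ↪ E) :
    IsUnit ((AA φ).submatrix id b) ↔ Bs (univ.map b) := by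
  rw [sub_eq, MulEquiv.isUnit_map, Module.End.isUnit_iff, bij φ hφ G D]

lemma entries (hφ : Function.Surjective φ) (G : Good (LinearMap.ker φ))
    (D : Dem (LinearMap.ker φ)) (b : Fin 14 ↪ E) (N : Matrix (Fin 14) (Fin 14) (Module.End F V))
    (h1 : N * (AA φ).submatrix id b = 1) (h2 : (AA φ).submatrix id b * N = 1) (i : Fin 14) (j : E) :
    (N * AA φ) i j = 0 ∨ IsUnit ((N * AA φ) i j) := by
  have hB : Bs (univ.map b) := (unit_iff hφ G D b).1 ⟨⟨_, N, h2, h1⟩, rfl⟩
  by_cases hj : j ∈ univ.map b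
  · obtain ⟨l, -, rfl⟩ := mem_map.1 hj
    have : (N * AA φ) i (b l) = (N * (AA φ).submatrix id b) i l := by
      simp [Matrix.mul_apply]
    rw [this, h1, Matrix.one_apply]
    split_ifs
    · exact Or.inr isUnit_one
    · exact Or.inl rfl
  let N' := (endVecRingEquivMatrixEnd (Fin 14) F V).symm N
  have e1 : (φ ∘ₗ ext b) * N' = 1 := by
    apply (endVecRingEquivMatrixEnd (Fin 14) F V).injective
    rw [map_mul, ← sub_eq, map_one, RingEquiv.apply_symm_apply, h2]
  have e2 : ∀ v, (N * AA φ) i j v = N' (φ (Pi.single j v)) i := by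
    intro v
    rw [Matrix.mul_apply, LinearMap.sum_apply]
    rfl
  let k : V → E → V := fun v => Pi.single j v - ext b (N' (φ (Pi.single j v)))
  have k1 : ∀ v, k v ∈ LinearMap.ker φ := by
    intro v
    have := LinearMap.congr_fun e1 (φ (Pi.single j v))
    rw [LinearMap.mem_ker, map_sub, sub_eq_zero]
    exact this.symm
  have hij : b i ≠ j := fun h => hj (by rw [← h]; simp)
  have k2 : ∀ v, k v j = v := fun v => by simp [k, ext_out b _ hj]
  have k3 : ∀ v, k v (b i) = - (N * AA φ) i j v := fun v => by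
    simp only [k, Pi.sub_apply, ext_in, Pi.single_eq_of_ne hij, zero_sub, e2]
  have k4 : ∀ v, sp (k v) ⊆ insert j (univ.map b) := fun v g hg => by
    by_contra h
    rw [mem_insert, not_or] at h
    apply mem_sp.1 hg
    simp only [k, Pi.sub_apply, ext_out b _ h.2, Pi.single_eq_of_ne h.1, sub_zero]
  have hi : b i ∈ insert j (univ.map b) := mem_insert_of_mem (by simp)
  by_cases hc : Cov (insert j (univ.map b)) (b i)
  · right
    have hB' := swap_bs hB hj hi hc
    rw [Module.End.isUnit_iff]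
    constructor
    · rw [injective_iff_map_eq_zero]
      intro v hv
      have := inj G hB' (k1 v) fun g hg => mem_erase.2 ⟨?_, k4 v hg⟩
      · rw [← k2 v, this]; rfl
      · rintro rfl
        apply mem_sp.1 hg
        rw [k3, hv, neg_zero]
    · intro w
      obtain ⟨x, x1, x2, x3⟩ := rel D hB' (notMem_erase _ _) (-w)
      rw [insert_erase hi] at x3
      have := inj G hB (sub_mem x1 (k1 (x j))) fun g hg => ?_
      · refine ⟨x j, ?_⟩
        have := congrFun this (b i)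
        rw [Pi.sub_apply, x2, k3, Pi.zero_apply, sub_eq_zero, neg_inj] at this
        exact this.symm
      · rw [mem_sp, Pi.sub_apply] at hg
        by_cases h : g = j
        · subst h; rw [k2, sub_self] at hg; exact absurd rfl hg
        by_contra h3
        apply hg
        have a1 : x g = 0 := by
          by_contra h4; exact h3 ((mem_insert.1 (x3 (mem_sp.2 h4))).resolve_left h)
        have a2 : k (x j) g = 0 := by
          by_contra h4; exact h3 ((mem_insert.1 (k4 _ (mem_sp.2 h4))).resolve_left h)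
        rw [a1, a2, sub_zero]
  · left
    apply LinearMap.ext
    intro v
    by_contra h
    apply hc
    refine cov_mono (k4 v) (G _ (k1 v) _ (mem_sp.2 ?_))
    rw [k3, neg_ne_zero]; exact h

noncomputable def MM : Matroid E :=
  (IndepMatroid.ofFinset Set.univ Ind (by unfold Ind Sm; decide)
    (fun I J hJ h => by
      have := card_le_card h
      have := c_mono h 0
      have := c_mono h 1
      have := c_mono h 2
      have := c_mono h 3
      unfold Ind Sm at *
      omega)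
    (fun _ _ => aug) (fun _ _ => Set.subset_univ _)).matroid

lemma MM_indep (I : Finset E) : MM.Indep I ↔ Ind I := by
  unfold MM
  rw [IndepMatroid.matroid_indep_iff, IndepMatroid.ofFinset_indep]

lemma MM_base (B : Finset E) : MM.IsBase B ↔ Bs B := by
  constructor
  · intro h
    have h1 := (MM_indep B).1 h.indep
    refine ⟨le_antisymm h1.1 ?_, h1.2⟩
    by_contra h2
    obtain ⟨e, -, e2, e3⟩ := aug h1 ⟨bs_b0.1.le, bs_b0.2⟩ (by rw [bs_b0.1]; omega)
    have := h.eq_of_subset_indep ((MM_indep _).2 e3) (by simp)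
    apply e2
    rw [← mem_coe, this]; simp
  · intro h
    apply ((MM_indep B).2 ⟨h.1.le, h.2⟩).isBase_of_maximal
    intro J hJ hBJ
    lift J to Finset E using J.toFinite
    rw [coe_inj]
    apply eq_of_subset_of_card_le (by exact_mod_cast hBJ)
    rw [h.1]; exact ((MM_indep J).1 hJ).1

def part (l : Fin 4) : Set E := {g | g.1 = l}

lemma rk_le {j l : Fin 4} (h : pr j l) : MM.eRk (part j ∪ part l) ≤ 11 := by
  rw [Matroid.eRk_le_iff]
  intro I hI hi
  lift I to Finset E using I.toFinite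
  have h1 := sm_pr ((MM_indep I).1 hi).2 h
  have e : fl I j l = I := filter_true_of_mem (fun x hx => hI (mem_coe.2 hx))
  rw [← card_fl _ h, e] at h1
  rw [Set.encard_coe_eq_coe_finsetCard]
  exact_mod_cast h1

lemma rk_ge {X : Set E} (I : Finset E) (h : Ind I) (h2 : ∀ g ∈ I, g ∈ X) :
    (I.card : ℕ∞) ≤ MM.eRk X := by
  rw [← Set.encard_coe_eq_coe_finsetCard]
  exact ((MM_indep I).2 h).encard_le_eRk_of_subset h2

theorem viol : ¬ (MM.eRk (part 0) + MM.eRk (part 1) + MM.eRk (part 0 ∪ part 1 ∪ part 2) +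
    MM.eRk (part 0 ∪ part 1 ∪ part 3) + MM.eRk (part 2 ∪ part 3) ≤
    MM.eRk (part 0 ∪ part 1) + MM.eRk (part 0 ∪ part 2) + MM.eRk (part 0 ∪ part 3) +
    MM.eRk (part 1 ∪ part 2) + MM.eRk (part 1 ∪ part 3)) := by
  intro h
  have a1 : ((7 : ℕ) : ℕ∞) ≤ MM.eRk (part 0) :=
    rk_ge (univ.filter fun g => g.1 = 0) (by unfold Ind Sm; decide) (by simp [part])
  have a2 : ((7 : ℕ) : ℕ∞) ≤ MM.eRk (part 1) :=
    rk_ge (univ.filter fun g => g.1 = 1) (by unfold Ind Sm; decide) (by simp [part])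
  have a3 : ((14 : ℕ) : ℕ∞) ≤ MM.eRk (part 0 ∪ part 1 ∪ part 2) :=
    rk_ge (univ.filter fun g => (g.1 = 0 ∧ g.2 < 4) ∨ (g.1 = 1 ∧ g.2 < 4) ∨ (g.1 = 2 ∧ g.2 < 6))
      (by unfold Ind Sm; decide) (by simp only [part, mem_filter, Set.mem_union, Set.mem_setOf_eq]; tauto)
  have a4 : ((14 : ℕ) : ℕ∞) ≤ MM.eRk (part 0 ∪ part 1 ∪ part 3) :=
    rk_ge (univ.filter fun g => (g.1 = 0 ∧ g.2 < 4) ∨ (g.1 = 1 ∧ g.2 < 4) ∨ (g.1 = 3 ∧ g.2 < 6))
      (by unfold Ind Sm; decide) (by simp only [part, mem_filter, Set.mem_union, Set.mem_setOf_eq]; tauto)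
  have a5 : ((14 : ℕ) : ℕ∞) ≤ MM.eRk (part 2 ∪ part 3) :=
    rk_ge (univ.filter fun g => g.1 = 2 ∨ g.1 = 3) (by unfold Ind Sm; decide) (by simp [part])
  have b1 := rk_le (j := 0) (l := 1) (by simp [pr])
  have b2 := rk_le (j := 0) (l := 2) (by simp [pr])
  have b3 := rk_le (j := 0) (l := 3) (by simp [pr])
  have b4 := rk_le (j := 1) (l := 2) (by simp [pr])
  have b5 := rk_le (j := 1) (l := 3) (by simp [pr])
  have := (add_le_add (add_le_add (add_le_add (add_le_add a1 a2) a3) a4) a5).trans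
    (h.trans (add_le_add (add_le_add (add_le_add (add_le_add b1 b2) b3) b4) b5))
  revert this
  decide

lemma base_iff (hφ : Function.Surjective φ) (G : Good (LinearMap.ker φ))
    (D : Dem (LinearMap.ker φ)) (B : Set E) : MM.IsBase B ↔
      ∃ b : Fin 14 ↪ E, Set.range ⇑b = B ∧ IsUnit ((AA φ).submatrix id ⇑b) := by
  lift B to Finset E using B.toFinite
  rw [MM_base]
  constructor
  · intro h
    let b : Fin 14 ↪ E := (B.equivFinOfCardEq h.1).symm.toEmbedding.trans
      (Function.Embedding.subtype _)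
    have e : univ.map b = B := by
      apply eq_of_subset_of_card_le _ (by simp [h.1])
      intro g hg
      obtain ⟨i, -, rfl⟩ := mem_map.1 hg
      exact ((B.equivFinOfCardEq h.1).symm i).2
    refine ⟨b, by rw [← e]; simp, ?_⟩
    rw [unit_iff hφ G D, e]; exact h
  · rintro ⟨b, h1, h2⟩
    have e : univ.map b = B := by rw [← coe_inj, ← h1]; simp
    rwa [unit_iff hφ G D, e] at h2

theorem fin (h : ∀ (φ : (E → V) →ₗ[F] (Fin 14 → V)),
    (∀ (b : Fin 14 ↪ E) (N : Matrix (Fin 14) (Fin 14) (Module.End F V)),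
          N * (AA φ).submatrix id ⇑b = 1 → (AA φ).submatrix id ⇑b * N = 1 →
          ∀ (i : Fin 14) (j : E), (N * AA φ) i j = 0 ∨ ∃ g ∈ (⊤ : Subgroup (Module.End F V)ˣ),
            (g : Module.End F V) = (N * AA φ) i j) →
      (∀ B : Set E, MM.IsBase B ↔
            ∃ b : Fin 14 ↪ E, Set.range ⇑b = B ∧ IsUnit ((AA φ).submatrix id ⇑b)) →
        ∀ P Q S T : Set E,
          MM.eRk P + MM.eRk Q + MM.eRk (P ∪ Q ∪ S) + MM.eRk (P ∪ Q ∪ T) + MM.eRk (S ∪ T) ≤
            MM.eRk (P ∪ Q) + MM.eRk (P ∪ S) + MM.eRk (P ∪ T) + MM.eRk (Q ∪ S) + MM.eRk (Q ∪ T)) :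
    False := by
  obtain ⟨φ, h1, h2, h3⟩ := ex_phi
  refine viol (h φ (fun b N a1 a2 i j => ?_) (base_iff h1 h2 h3) _ _ _ _)
  rcases entries h1 h2 h3 b N a1 a2 i j with h | ⟨g, h⟩
  · exact Or.inl h
  · exact Or.inr ⟨g, Subgroup.mem_top _, h⟩

lemma MM_E : MM.E = Set.univ := rfl

end Pool.Agent.H.MP_dbb207_co
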